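import Pool.Agent.H288Z.MG.Compl

set_option autoImplicit false

namespace Pool.Agent.Results.MP_47408d_gt.AllPrecompact

open Filter Topology
open scoped Pointwise

/-- Every infinite Hausdorff topological group that is precompact and minimal contains a sequence
of pairwise distinct points converging to a point of the group. No algebraic hypothesis
(solvable, nilpotent) and no countable compactness is needed. -/
theorem result (G : Type) [Group G] [t : TopologicalSpace G] [IsTopologicalGroup G] [T2Space G]
    [Infinite G]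
    (hpre : ∀ U ∈ 𝓝 (1 : G), ∃ F : Set G, F.Finite ∧ F * U = Set.univ)
    (hmin : ∀ τ : TopologicalSpace G, @IsTopologicalGroup G τ _ → @T2Space G τ →
      t ≤ τ → τ = t) :
    ∃ (u : ℕ → G) (x : G), Function.Injective u ∧ Tendsto u atTop (𝓝 x) := by
  have h : Pool.Agent.H288Z.MG.Precompact G := by
    intro U hU
    obtain ⟨F, hF, hFU⟩ := hpre U hU
    refine ⟨F, hF, fun g => ?_⟩
    have hg : g ∈ F * U := hFU ▸ Set.mem_univ g
    obtain ⟨f, hf, v, hv, rfl⟩ := Set.mem_mul.mp hg
    exact ⟨f, hf, by rwa [inv_mul_cancel_left]⟩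
  obtain ⟨v, hv1, hv2⟩ := Pool.Agent.H288Z.MG.main h hmin
  exact ⟨v, 1, hv1, hv2⟩

end Pool.Agent.Results.MP_47408d_gt.AllPrecompact
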